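import Pool.Agent.R161.Bohr.Defs

/-! MP_0fda35_co, piece S_met: mean ergodic theorem along a subgroup. -/

set_option autoImplicit false

namespace Pool.Agent.R706.Bohr

open Pool.Agent.R161.Bohr Finset

universe u

theorem met_norm {G : Type u} [AddCommGroup G] {H : Type u} [NormedAddCommGroup H]
    [InnerProductSpace ℂ H] {T : G → H →L[ℂ] H} (hT : IsRep T) (g : G) (x : H) :
    ‖T g x‖ = ‖x‖ := by
  have h := hT.inner g x x
  rw [inner_self_eq_norm_sq_to_K, inner_self_eq_norm_sq_to_K] at h
  have h2 : ‖T g x‖ ^ 2 = ‖x‖ ^ 2 := by exact_mod_cast h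
  exact (pow_left_inj₀ (norm_nonneg _) (norm_nonneg _) two_ne_zero).1 h2

theorem s_met : S_met.{u} := by
  classical
  intro G _ H _ _ _ T hT L x
  let _ : InnerProductSpace ℝ H := InnerProductSpace.complexToReal
  set S : Set H := (fun l : G => T l x) '' (L : Set G) with hS
  set K : Set H := closure (convexHull ℝ S) with hK
  have hSne : S.Nonempty := ⟨T 0 x, 0, L.zero_mem, rfl⟩
  have hKne : K.Nonempty := (hSne.mono (subset_convexHull ℝ S)).mono subset_closure
  have hKc : IsClosed K := isClosed_closure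
  have hKconv : Convex ℝ K := (convex_convexHull ℝ S).closure
  obtain ⟨y, hyK, hy⟩ := exists_norm_eq_iInf_of_complete_convex hKne hKc.isComplete hKconv 0
  have hmin : ∀ u ∈ K, ‖y‖ ≤ ‖u‖ := by
    intro u hu
    have h1 : (⨅ w : K, ‖(0 : H) - w‖) ≤ ‖(0 : H) - u‖ :=
      ciInf_le ⟨0, Set.forall_mem_range.2 fun _ => norm_nonneg _⟩ (⟨u, hu⟩ : K)
    rw [← hy] at h1
    simpa using h1
  have hTS : ∀ l ∈ L, ∀ u ∈ K, T l u ∈ K := by
    intro l hl u hu
    have h1 : Set.MapsTo (T l) S (convexHull ℝ S) := by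
      rintro _ ⟨k, hk, rfl⟩
      refine subset_convexHull ℝ S ⟨l + k, L.add_mem hl hk, ?_⟩
      exact hT.add l k x
    have h2 : Convex ℝ ((T l) ⁻¹' (convexHull ℝ S)) := by
      have := (convex_convexHull ℝ S).linear_preimage ((T l).restrictScalars ℝ).toLinearMap
      exact this
    have h3 : Set.MapsTo (T l) (convexHull ℝ S) (convexHull ℝ S) := fun v hv =>
      convexHull_min h1 h2 hv
    exact h3.closure (T l).continuous hu
  have hfix : ∀ l ∈ L, T l y = y := by
    intro l hl
    have h1 : T l y ∈ K := hTS l hl y hyK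
    have h2 : (1 / 2 : ℝ) • y + (1 / 2 : ℝ) • T l y ∈ K :=
      hKconv hyK h1 (by norm_num) (by norm_num) (by norm_num)
    have h3 := hmin _ h2
    rw [← smul_add, norm_smul] at h3
    have h4 : ‖T l y‖ = ‖y‖ := met_norm hT l y
    have h5 := parallelogram_law_with_norm ℝ y (T l y)
    rw [h4] at h5
    have h6 : 2 * ‖y‖ ≤ ‖y + T l y‖ := by
      rw [Real.norm_eq_abs, abs_of_pos (by norm_num)] at h3
      linarith
    have h7 : ‖y - T l y‖ = 0 := by
      nlinarith [norm_nonneg (y - T l y), norm_nonneg y, norm_nonneg (y + T l y)]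
    exact (sub_eq_zero.1 (norm_eq_zero.1 h7)).symm
  refine ⟨y, hfix, ?_, ?_⟩
  · intro z hz
    have h1 : ∀ u ∈ S, inner ℂ z u = (inner ℂ z x : ℂ) := by
      rintro _ ⟨l, hl, rfl⟩
      show inner ℂ z (T l x) = (inner ℂ z x : ℂ)
      conv_lhs => rw [← hz l hl]
      exact hT.inner l z x
    have h2 : Convex ℝ {u : H | inner ℂ z u = (inner ℂ z x : ℂ)} := by
      intro a ha b hb s t hs ht hst
      simp only [Set.mem_ofPred_eq] at ha hb ⊢
      rw [inner_add_right, ← Complex.coe_smul, ← Complex.coe_smul, inner_smul_right,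
        inner_smul_right, ha, hb, ← add_mul]
      have : (s : ℂ) + (t : ℂ) = 1 := by exact_mod_cast hst
      rw [this, one_mul]
    have h3 : IsClosed {u : H | inner ℂ z u = (inner ℂ z x : ℂ)} :=
      isClosed_eq (by fun_prop) continuous_const
    have h4 : K ⊆ {u : H | inner ℂ z u = (inner ℂ z x : ℂ)} :=
      closure_minimal (convexHull_min h1 h2) h3
    have h5 := h4 hyK
    simp only [Set.mem_ofPred_eq] at h5
    rw [inner_sub_right, h5, sub_self]
  · intro ε hε
    obtain ⟨u, hu, hdu⟩ := Metric.mem_closure_iff.1 hyK ε hε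
    rw [mem_convexHull_iff_exists_fintype] at hu
    obtain ⟨ι, _, w, z, hw0, hw1, hz, rfl⟩ := hu
    choose k hkL hkz using hz
    refine ⟨univ.image k, fun g => ∑ i ∈ univ.filter (fun i => k i = g), w i, ?_, ?_, ?_⟩
    · intro l hl
      obtain ⟨i, _, rfl⟩ := Finset.mem_image.1 hl
      exact ⟨hkL i, Finset.sum_nonneg fun j _ => hw0 j⟩
    · rw [Finset.sum_fiberwise_of_maps_to (fun i _ => Finset.mem_image_of_mem k (mem_univ i))]
      exact hw1
    · have h1 : ∑ l ∈ univ.image k,
          ((∑ i ∈ univ.filter (fun i => k i = l), w i : ℝ) : ℂ) • T l x = ∑ i, w i • z i := by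
        rw [← Finset.sum_fiberwise_of_maps_to (s := univ) (t := univ.image k) (g := k)
          (fun i _ => Finset.mem_image_of_mem k (mem_univ i)) (fun i => w i • z i)]
        refine Finset.sum_congr rfl fun l _ => ?_
        rw [Complex.ofReal_sum, Finset.sum_smul]
        refine Finset.sum_congr rfl fun i hi => ?_
        rw [Finset.mem_filter] at hi
        rw [Complex.coe_smul, ← hkz i, hi.2]
      rw [h1, ← dist_eq_norm, dist_comm]
      exact hdu

end Pool.Agent.R706.Bohr
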