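import Pool.Agent.R161.Bohr.Defs

/-! MP_0fda35_co, piece S_rep: weak mixing dichotomy for unitary representations. -/

set_option autoImplicit false

namespace Pool.Agent.R706.Bohr

open Pool.Agent.R161.Bohr Finset
open scoped ComplexConjugate

universe u v

namespace Rep

section state

variable {X : Type v}

theorem bdd_ofReal {f : X → ℝ} (hf : BddR f) : Bdd (fun x => (f x : ℂ)) := by
  obtain ⟨C, hC⟩ := hf
  exact ⟨C, fun x => by rw [Complex.norm_real]; exact hC x⟩

theorem bddR_re {f : X → ℂ} (hf : Bdd f) : BddR (fun x => (f x).re) := by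
  obtain ⟨C, hC⟩ := hf
  exact ⟨C, fun x => (Complex.abs_re_le_norm _).trans (hC x)⟩

theorem bddR_im {f : X → ℂ} (hf : Bdd f) : BddR (fun x => (f x).im) := by
  obtain ⟨C, hC⟩ := hf
  exact ⟨C, fun x => (Complex.abs_im_le_norm _).trans (hC x)⟩

theorem bdd_smul (c : ℂ) {f : X → ℂ} (hf : Bdd f) : Bdd (fun x => c * f x) := by
  obtain ⟨C, hC⟩ := hf
  refine ⟨‖c‖ * C, fun x => ?_⟩
  rw [norm_mul]
  exact mul_le_mul_of_nonneg_left (hC x) (norm_nonneg _)

theorem bddR_smul (c : ℝ) {f : X → ℝ} (hf : BddR f) : BddR (fun x => c * f x) := by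
  obtain ⟨C, hC⟩ := hf
  refine ⟨|c| * C, fun x => ?_⟩
  rw [abs_mul]
  exact mul_le_mul_of_nonneg_left (hC x) (abs_nonneg _)

theorem bddR_add {f g : X → ℝ} (hf : BddR f) (hg : BddR g) : BddR (fun x => f x + g x) := by
  obtain ⟨C, hC⟩ := hf
  obtain ⟨D, hD⟩ := hg
  exact ⟨C + D, fun x => (abs_add_le _ _).trans (add_le_add (hC x) (hD x))⟩

theorem bddR_const (c : ℝ) : BddR (fun _ : X => c) := ⟨|c|, fun _ => le_rfl⟩

theorem s_ofReal (m : St X) {f : X → ℝ} (hf : BddR f) :
    m (fun x => (f x : ℂ)) = (m.re f : ℂ) := by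
  refine Complex.ext ?_ ?_
  · rw [Complex.ofReal_re]
    rfl
  · rw [Complex.ofReal_im]
    exact m.real' f hf

theorem sre_add (m : St X) {f g : X → ℝ} (hf : BddR f) (hg : BddR g) :
    m.re (fun x => f x + g x) = m.re f + m.re g := by
  unfold St.re
  have := m.add' _ _ (bdd_ofReal hf) (bdd_ofReal hg)
  simp only [Complex.ofReal_add]
  rw [this, Complex.add_re]

theorem sre_smul (m : St X) (c : ℝ) {f : X → ℝ} (hf : BddR f) :
    m.re (fun x => c * f x) = c * m.re f := by
  unfold St.re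
  have := m.smul' (c : ℂ) _ (bdd_ofReal hf)
  simp only [Complex.ofReal_mul]
  rw [this, Complex.re_ofReal_mul]

theorem sre_mono (m : St X) {f g : X → ℝ} (hf : BddR f) (hg : BddR g) (h : ∀ x, f x ≤ g x) :
    m.re f ≤ m.re g := by
  have h1 := m.nonneg' (fun x => g x + (-1) * f x) (bddR_add hg (bddR_smul _ hf))
    (fun x => by linarith [h x])
  have h2 : 0 ≤ m.re (fun x => g x + (-1) * f x) := h1
  rw [sre_add m hg (bddR_smul _ hf), sre_smul m _ hf] at h2
  linarith

theorem sre_const (m : St X) (c : ℝ) : m.re (fun _ => c) = c := by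
  have h1 := sre_smul m c (bddR_const (X := X) 1)
  simp only [mul_one] at h1
  rw [h1]
  have h2 : m.re (fun _ : X => (1 : ℝ)) = 1 := by
    unfold St.re
    simp only [Complex.ofReal_one]
    rw [m.one', Complex.one_re]
  rw [h2, mul_one]

theorem sre_nonneg (m : St X) {f : X → ℝ} (hf : BddR f) (h : ∀ x, 0 ≤ f x) : 0 ≤ m.re f :=
  m.nonneg' f hf h

theorem sre_le (m : St X) {f : X → ℝ} (hf : BddR f) {C : ℝ} (h : ∀ x, f x ≤ C) :
    m.re f ≤ C := by
  have := sre_mono m hf (bddR_const C) h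
  rwa [sre_const] at this

theorem sre_sum (m : St X) {ι : Type*} (s : Finset ι) (f : ι → X → ℝ) (hf : ∀ i, BddR (f i)) :
    BddR (fun x => ∑ i ∈ s, f i x) ∧ m.re (fun x => ∑ i ∈ s, f i x) = ∑ i ∈ s, m.re (f i) := by
  classical
  induction s using Finset.induction_on with
  | empty =>
    simp only [Finset.sum_empty]
    exact ⟨bddR_const 0, sre_const m 0⟩
  | insert a s ha ih =>
    simp only [Finset.sum_insert ha]
    exact ⟨bddR_add (hf a) ih.1, by rw [sre_add m (hf a) ih.1, ih.2]⟩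

theorem s_parts (m : St X) {f : X → ℂ} (hf : Bdd f) :
    m f = (m.re (fun x => (f x).re) : ℂ) + Complex.I * (m.re (fun x => (f x).im) : ℂ) := by
  have h1 : f = fun x => (fun y => ((f y).re : ℂ)) x + (fun y => Complex.I * ((f y).im : ℂ)) x := by
    funext x
    simp only
    rw [mul_comm Complex.I]
    exact (Complex.re_add_im (f x)).symm
  conv_lhs => rw [h1]
  rw [m.add' _ _ (bdd_ofReal (bddR_re hf)) (bdd_smul _ (bdd_ofReal (bddR_im hf))),
    m.smul' _ _ (bdd_ofReal (bddR_im hf)), s_ofReal m (bddR_re hf), s_ofReal m (bddR_im hf)]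

theorem s_re (m : St X) {f : X → ℂ} (hf : Bdd f) : (m f).re = m.re (fun x => (f x).re) := by
  rw [s_parts m hf]
  simp

theorem s_conj (m : St X) {f : X → ℂ} (hf : Bdd f) :
    m (fun x => conj (f x)) = conj (m f) := by
  have h1 : Bdd (fun x => conj (f x)) := by
    obtain ⟨C, hC⟩ := hf
    exact ⟨C, fun x => by rw [Complex.norm_conj]; exact hC x⟩
  rw [s_parts m h1, s_parts m hf]
  have h2 : m.re (fun x => (conj (f x)).im) = - m.re (fun x => (f x).im) := by
    have := sre_smul m (-1) (bddR_im hf)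
    simp only [neg_mul, one_mul] at this
    simp only [Complex.conj_im]
    exact this
  rw [h2]
  simp only [Complex.conj_re]
  simp [Complex.conj_ofReal]

theorem s_norm_le (m : St X) {f : X → ℂ} (hf : Bdd f) {F : X → ℝ} (hF : BddR F)
    (hC : ∀ x, ‖f x‖ ≤ F x) : ‖m f‖ ≤ m.re F := by
  by_cases h0 : m f = 0
  · rw [h0, norm_zero]
    exact sre_nonneg m hF fun x => (norm_nonneg _).trans (hC x)
  · set c : ℂ := conj (m f) / ‖m f‖ with hc
    have hn : (‖m f‖ : ℂ) ≠ 0 := by
      rw [Ne, Complex.ofReal_eq_zero, norm_eq_zero]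
      exact h0
    have h1 : c * m f = ‖m f‖ := by
      rw [hc, div_mul_eq_mul_div, Complex.conj_mul', sq, mul_div_assoc, div_self hn, mul_one]
    have hcn : ‖c‖ = 1 := by
      rw [hc, norm_div, Complex.norm_conj, Complex.norm_real, norm_norm, div_self]
      rw [Ne, norm_eq_zero]
      exact h0
    have h2 : (m (fun x => c * f x)).re = ‖m f‖ := by
      rw [m.smul' c f hf, h1, Complex.ofReal_re]
    rw [← h2, s_re m (bdd_smul c hf)]
    refine sre_mono m (bddR_re (bdd_smul c hf)) hF fun x => ?_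
    refine (Complex.re_le_norm _).trans ?_
    rw [norm_mul, hcn, one_mul]
    exact hC x

end state

section main

variable {G : Type u} [AddCommGroup G] {H : Type u} [NormedAddCommGroup H]
  [InnerProductSpace ℂ H]

theorem rep_norm {T : G → H →L[ℂ] H} (hT : IsRep T) (g : G) (x : H) : ‖T g x‖ = ‖x‖ := by
  have h := hT.inner g x x
  rw [inner_self_eq_norm_sq_to_K, inner_self_eq_norm_sq_to_K] at h
  have h2 : ‖T g x‖ ^ 2 = ‖x‖ ^ 2 := by exact_mod_cast h
  exact (pow_left_inj₀ (norm_nonneg _) (norm_nonneg _) two_ne_zero).1 h2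

theorem rep_shift {T : G → H →L[ℂ] H} (hT : IsRep T) (g : G) (x y : H) :
    inner ℂ x (T g y) = (inner ℂ (T (-g) x) y : ℂ) := by
  have h := hT.inner (-g) x (T g y)
  rw [← h, ← hT.add, neg_add_cancel, hT.zero]

/-- common eigenvector -/
theorem common {T : G → H →L[ℂ] H} (hT : IsRep T) (n : ℕ) :
    ∀ V : Submodule ℂ H, FiniteDimensional ℂ V → Module.finrank ℂ V = n → V ≠ ⊥ →
      (∀ g, ∀ x ∈ V, T g x ∈ V) → ∃ x ∈ V, x ≠ 0 ∧ ∀ g, ∃ c : ℂ, T g x = c • x := by
  induction n using Nat.strong_induction_on with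
  | _ n ih =>
    intro V hfd hV hne hinv
    by_cases hsc : ∀ g, ∃ c : ℂ, ∀ x ∈ V, T g x = c • x
    · obtain ⟨x, hx, hx0⟩ := Submodule.exists_mem_ne_zero_of_ne_bot hne
      refine ⟨x, hx, hx0, fun g => ?_⟩
      obtain ⟨c, hc⟩ := hsc g
      exact ⟨c, hc x hx⟩
    · push Not at hsc
      obtain ⟨g, hg⟩ := hsc
      let f : V →ₗ[ℂ] V := (T g).toLinearMap.restrict (hinv g)
      have : Nontrivial V := Submodule.nontrivial_iff_ne_bot.2 hne
      obtain ⟨c, hc⟩ := Module.End.exists_eigenvalue f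
      obtain ⟨w, hw⟩ := hc.exists_hasEigenvector
      let W : Submodule ℂ H := V ⊓ LinearMap.ker ((T g).toLinearMap - c • LinearMap.id)
      have hWmem : ∀ x, x ∈ W ↔ x ∈ V ∧ T g x = c • x := by
        intro x
        simp only [W, Submodule.mem_inf, LinearMap.mem_ker, LinearMap.sub_apply,
          LinearMap.smul_apply, LinearMap.id_apply, sub_eq_zero]
        rfl
      have hWV : W ≤ V := inf_le_left
      have hWne : W ≠ ⊥ := by
        intro h
        have h1 : (w : H) ∈ W := by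
          rw [hWmem]
          refine ⟨w.2, ?_⟩
          have := hw.apply_eq_smul
          exact congrArg Subtype.val this
        rw [h, Submodule.mem_bot] at h1
        exact hw.2 (Subtype.ext h1)
      have hWlt : W < V := by
        refine lt_of_le_of_ne hWV ?_
        intro h
        obtain ⟨x, hx, hx2⟩ := hg c
        rw [← h, hWmem] at hx
        exact hx2 hx.2
      have : FiniteDimensional ℂ W := Submodule.finiteDimensional_of_le hWV
      have hlt : Module.finrank ℂ W < n := by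
        rw [← hV]
        exact Submodule.finrank_lt_finrank_of_lt hWlt
      obtain ⟨x, hx, hx0, hx2⟩ := ih _ hlt W inferInstance rfl hWne (by
        intro h x hx
        rw [hWmem] at hx ⊢
        refine ⟨hinv h x hx.1, ?_⟩
        rw [← hT.add, add_comm, hT.add, hx.2, map_smul])
      exact ⟨x, hWV hx, hx0, hx2⟩

/-- the character of a common eigenvector -/
theorem char_of {T : G → H →L[ℂ] H} (hT : IsRep T) (x : H) (hx : x ≠ 0)
    (h : ∀ g, ∃ c : ℂ, T g x = c • x) : ∃ χ : AddChar G Circle, ∀ g, T g x = (χ g : ℂ) • x := by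
  choose c hc using h
  have hn : ∀ g, ‖c g‖ = 1 := by
    intro g
    have h1 := rep_norm hT g x
    rw [hc g, norm_smul] at h1
    have h2 : ‖x‖ ≠ 0 := norm_ne_zero_iff.2 hx
    exact mul_right_cancel₀ h2 (by rw [h1, one_mul])
  have h0 : c 0 = 1 := by
    have h1 := hc 0
    rw [hT.zero] at h1
    have h2 : (c 0 - 1) • x = 0 := by rw [sub_smul, ← h1, one_smul, sub_self]
    rcases smul_eq_zero.1 h2 with h3 | h3
    · exact sub_eq_zero.1 h3
    · exact absurd h3 hx
  have hadd : ∀ g k, c (g + k) = c g * c k := by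
    intro g k
    have h1 := hc (g + k)
    rw [hT.add, hc k, map_smul, hc g, smul_smul] at h1
    have h2 : (c k * c g - c (g + k)) • x = 0 := by rw [sub_smul, ← h1, sub_self]
    rcases smul_eq_zero.1 h2 with h3 | h3
    · rw [← sub_eq_zero.1 h3, mul_comm]
    · exact absurd h3 hx
  refine ⟨⟨fun g => ⟨c g, mem_sphere_zero_iff_norm.2 (hn g)⟩, ?_, ?_⟩, fun g => hc g⟩
  · exact Circle.ext h0
  · intro a b
    exact Circle.ext (hadd a b)

end main


section op

variable {G : Type u} [AddCommGroup G] {H : Type u} [NormedAddCommGroup H]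
  [InnerProductSpace ℂ H]

/-- the product function -/
noncomputable def bf (T : G → H →L[ℂ] H) (v x y : H) (k : G) : ℂ :=
  inner ℂ x (T k v) * inner ℂ (T k v) y

theorem bf_norm {T : G → H →L[ℂ] H} (hT : IsRep T) (v x y : H) (k : G) :
    ‖bf T v x y k‖ ≤ ‖v‖ ^ 2 * ‖x‖ * ‖y‖ := by
  unfold bf
  rw [norm_mul]
  have h1 := norm_inner_le_norm (𝕜 := ℂ) x (T k v)
  have h2 := norm_inner_le_norm (𝕜 := ℂ) (T k v) y
  rw [rep_norm hT] at h1 h2
  calc _ ≤ (‖x‖ * ‖v‖) * (‖v‖ * ‖y‖) := mul_le_mul h1 h2 (norm_nonneg _) (by positivity)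
    _ = _ := by ring

theorem bf_bdd {T : G → H →L[ℂ] H} (hT : IsRep T) (v x y : H) : Bdd (bf T v x y) :=
  ⟨_, bf_norm hT v x y⟩

theorem bf_add_left (T : G → H →L[ℂ] H) (v x x' y : H) :
    bf T v (x + x') y = fun k => bf T v x y k + bf T v x' y k := by
  funext k
  simp only [bf, inner_add_left, add_mul]

theorem bf_smul_left (T : G → H →L[ℂ] H) (v : H) (c : ℂ) (x y : H) :
    bf T v (c • x) y = fun k => conj c * bf T v x y k := by
  funext k
  simp only [bf, inner_smul_left, mul_assoc]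

theorem bf_add_right (T : G → H →L[ℂ] H) (v x y y' : H) :
    bf T v x (y + y') = fun k => bf T v x y k + bf T v x y' k := by
  funext k
  simp only [bf, inner_add_right, mul_add]

theorem bf_smul_right (T : G → H →L[ℂ] H) (v : H) (c : ℂ) (x y : H) :
    bf T v x (c • y) = fun k => c * bf T v x y k := by
  funext k
  simp only [bf, inner_smul_right]
  ring

/-- the sesquilinear form -/
noncomputable def form (m : St G) {T : G → H →L[ℂ] H} (hT : IsRep T) (v : H) :
    H →L⋆[ℂ] H →L[ℂ] ℂ :=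
  LinearMap.mkContinuous₂ (LinearMap.mk₂'ₛₗ (starRingEnd ℂ) (RingHom.id ℂ)
    (fun x y => m (bf T v x y))
    (fun x x' y => by
      rw [bf_add_left]
      exact m.add' _ _ (bf_bdd hT _ _ _) (bf_bdd hT _ _ _))
    (fun c x y => by
      rw [bf_smul_left]
      exact m.smul' _ _ (bf_bdd hT _ _ _))
    (fun x y y' => by
      rw [bf_add_right]
      exact m.add' _ _ (bf_bdd hT _ _ _) (bf_bdd hT _ _ _))
    (fun c x y => by
      rw [bf_smul_right]
      exact m.smul' _ _ (bf_bdd hT _ _ _))) (‖v‖ ^ 2) (fun x y => by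
      have h1 := s_norm_le m (bf_bdd hT v x y) (bddR_const (‖v‖ ^ 2 * ‖x‖ * ‖y‖))
        (bf_norm hT v x y)
      rw [sre_const] at h1
      exact h1)

theorem form_apply (m : St G) {T : G → H →L[ℂ] H} (hT : IsRep T) (v x y : H) :
    form m hT v x y = m (bf T v x y) := rfl

/-- the quadratic form -/
noncomputable def qf (m : St G) (T : G → H →L[ℂ] H) (v x : H) : ℝ :=
  m.re (fun k => ‖(inner ℂ x (T k v) : ℂ)‖ ^ 2)

theorem q_bdd {T : G → H →L[ℂ] H} (hT : IsRep T) (v x : H) :
    BddR (fun k => ‖(inner ℂ x (T k v) : ℂ)‖ ^ 2) := by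
  refine ⟨(‖x‖ * ‖v‖) ^ 2, fun k => ?_⟩
  have h1 := norm_inner_le_norm (𝕜 := ℂ) x (T k v)
  rw [rep_norm hT] at h1
  rw [abs_of_nonneg (by positivity)]
  exact pow_le_pow_left₀ (norm_nonneg _) h1 2

theorem qf_smul (m : St G) {T : G → H →L[ℂ] H} (hT : IsRep T) (v x : H) (c : ℂ) :
    qf m T v (c • x) = ‖c‖ ^ 2 * qf m T v x := by
  unfold qf
  rw [← sre_smul m _ (q_bdd hT v x)]
  congr 1
  funext k
  rw [inner_smul_left, norm_mul, Complex.norm_conj, mul_pow]

theorem exists_family (m : St G) {T : G → H →L[ℂ] H} (hT : IsRep T) (v : H) {ε : ℝ}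
    (hε : 0 < ε) : ∃ (n : ℕ) (e : Fin n → H), Orthonormal ℂ e ∧
      ∀ x, (∀ i, inner ℂ x (e i) = (0 : ℂ)) → qf m T v x ≤ ε * ‖x‖ ^ 2 := by
  by_contra hcon
  push Not at hcon
  have hfam : ∀ n : ℕ, ∃ e : Fin n → H, Orthonormal ℂ e ∧ ∀ i, ε ≤ qf m T v (e i) := by
    intro n
    induction n with
    | zero => exact ⟨Fin.elim0, ⟨fun i => i.elim0, fun i => i.elim0⟩, fun i => i.elim0⟩
    | succ n ih =>
      obtain ⟨e, he, hq⟩ := ih
      obtain ⟨x, hx, hxq⟩ := hcon n e he
      have hx0 : x ≠ 0 := by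
        rintro rfl
        have h1 : qf m T v 0 = 0 := by
          have := qf_smul m hT v 0 0
          rw [smul_zero, norm_zero] at this
          rw [this]
          ring
        rw [h1, norm_zero] at hxq
        norm_num at hxq
      have hn : 0 < ‖x‖ := norm_pos_iff.2 hx0
      refine ⟨Matrix.vecCons (((‖x‖⁻¹ : ℝ) : ℂ) • x) e, ?_, ?_⟩
      · rw [orthonormal_vecCons_iff]
        refine ⟨?_, fun i => ?_, he⟩
        · rw [norm_smul, Complex.norm_real, norm_inv, norm_norm, inv_mul_cancel₀ hn.ne']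
        · rw [inner_smul_left, hx i, mul_zero]
      · intro i
        refine Fin.cases ?_ (fun j => ?_) i
        · rw [Matrix.cons_val_zero, qf_smul m hT, Complex.norm_real, norm_inv, norm_norm, inv_pow]
          rw [inv_mul_eq_div, le_div_iff₀ (by positivity)]
          exact hxq.le
        · rw [Matrix.cons_val_succ]
          exact hq j
  obtain ⟨n, hn⟩ := exists_nat_gt (‖v‖ ^ 2 / ε)
  obtain ⟨e, he, hq⟩ := hfam n
  have h1 : (n : ℝ) * ε ≤ ‖v‖ ^ 2 := by
    calc (n : ℝ) * ε = ∑ _i : Fin n, ε := by rw [Finset.sum_const, Finset.card_univ,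
          Fintype.card_fin, nsmul_eq_mul]
      _ ≤ ∑ i : Fin n, qf m T v (e i) := Finset.sum_le_sum fun i _ => hq i
      _ = m.re (fun k => ∑ i : Fin n, ‖(inner ℂ (e i) (T k v) : ℂ)‖ ^ 2) :=
          (sre_sum m univ (fun i k => ‖(inner ℂ (e i) (T k v) : ℂ)‖ ^ 2)
            (fun i => q_bdd hT v (e i))).2.symm
      _ ≤ ‖v‖ ^ 2 := by
          refine sre_le m (sre_sum m univ (fun i k => ‖(inner ℂ (e i) (T k v) : ℂ)‖ ^ 2)
            (fun i => q_bdd hT v (e i))).1 fun k => ?_
          have := he.sum_inner_products_le (x := T k v) (s := univ)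
          rwa [rep_norm hT] at this
  rw [div_lt_iff₀ hε] at hn
  linarith

variable [CompleteSpace H]

/-- the averaged operator -/
noncomputable def Kop (m : St G) {T : G → H →L[ℂ] H} (hT : IsRep T) (v : H) : H →L[ℂ] H :=
  InnerProductSpace.continuousLinearMapOfBilin (form m hT v)

theorem K_inner (m : St G) {T : G → H →L[ℂ] H} (hT : IsRep T) (v x y : H) :
    inner ℂ (Kop m hT v x) y = m (bf T v x y) := by
  unfold Kop
  rw [InnerProductSpace.continuousLinearMapOfBilin_apply]
  rfl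

theorem K_symm (m : St G) {T : G → H →L[ℂ] H} (hT : IsRep T) (v x y : H) :
    inner ℂ (Kop m hT v x) y = (inner ℂ x (Kop m hT v y) : ℂ) := by
  rw [← inner_conj_symm x, K_inner, K_inner, ← s_conj m (bf_bdd hT _ _ _)]
  congr 1
  funext k
  simp only [bf, map_mul, inner_conj_symm]
  ring

theorem K_comm (m : St G) (hm : m.Inv) {T : G → H →L[ℂ] H} (hT : IsRep T) (v : H) (g : G)
    (x : H) : T g (Kop m hT v x) = Kop m hT v (T g x) := by
  refine ext_inner_right ℂ fun y => ?_
  have h1 : inner ℂ (T g (Kop m hT v x)) y = (inner ℂ (Kop m hT v x) (T (-g) y) : ℂ) := by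
    rw [rep_shift hT (-g), neg_neg]
  rw [h1, K_inner, K_inner, ← hm _ g (bf_bdd hT v (T g x) y)]
  congr 1
  funext k
  simp only [bf]
  have h2 : inner ℂ (T g x) (T (k + g) v) = (inner ℂ x (T k v) : ℂ) := by
    rw [add_comm, hT.add, hT.inner]
  have h3 : inner ℂ (T k v) (T (-g) y) = (inner ℂ (T (k + g) v) y : ℂ) := by
    rw [rep_shift hT (-g), neg_neg, ← hT.add, add_comm]
  rw [h2, h3]

theorem K_bound (m : St G) {T : G → H →L[ℂ] H} (hT : IsRep T) (v z : H) :
    ‖Kop m hT v z‖ ^ 2 ≤ (‖v‖ ^ 2 + 1) * qf m T v z := by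
  set A : ℝ := ‖v‖ ^ 2 + 1 with hA
  have hApos : 0 < A := by positivity
  set y := Kop m hT v z with hy
  have h1 : (‖y‖ ^ 2 : ℝ) = ‖m (bf T v z y)‖ := by
    rw [← K_inner m hT v z y, ← hy, inner_self_eq_norm_sq_to_K]
    simp
  have h2 : ‖m (bf T v z y)‖ ≤
      m.re (fun k => A / 2 * ‖(inner ℂ z (T k v) : ℂ)‖ ^ 2 + ‖y‖ ^ 2 / 2) := by
    refine s_norm_le m (bf_bdd hT v z y)
      (bddR_add (bddR_smul _ (q_bdd hT v z)) (bddR_const _)) fun k => ?_
    unfold bf
    rw [norm_mul]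
    have h3 := norm_inner_le_norm (𝕜 := ℂ) (T k v) y
    rw [rep_norm hT] at h3
    set a := ‖(inner ℂ z (T k v) : ℂ)‖ with ha
    set b := ‖(inner ℂ (T k v) y : ℂ)‖ with hb
    have ha0 : 0 ≤ a := norm_nonneg _
    have hb0 : 0 ≤ b := norm_nonneg _
    have h4 : b ^ 2 ≤ A * ‖y‖ ^ 2 := by
      calc b ^ 2 ≤ (‖v‖ * ‖y‖) ^ 2 := pow_le_pow_left₀ hb0 h3 2
        _ = ‖v‖ ^ 2 * ‖y‖ ^ 2 := by ring
        _ ≤ A * ‖y‖ ^ 2 := by
            refine mul_le_mul_of_nonneg_right ?_ (by positivity)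
            linarith
    have h5 : 2 * A * (a * b) ≤ A ^ 2 * a ^ 2 + b ^ 2 := by
      nlinarith [sq_nonneg (A * a - b)]
    have h6 : 2 * A * (a * b) ≤ A * (A * a ^ 2 + ‖y‖ ^ 2) := by nlinarith
    have h7 : 2 * (a * b) ≤ A * a ^ 2 + ‖y‖ ^ 2 := by
      have : A * (2 * (a * b)) ≤ A * (A * a ^ 2 + ‖y‖ ^ 2) := by linarith
      exact le_of_mul_le_mul_left this hApos
    linarith
  rw [sre_add m (bddR_smul _ (q_bdd hT v z)) (bddR_const _), sre_smul m _ (q_bdd hT v z),
    sre_const, ← h1] at h2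
  have h8 : m.re (fun k => ‖(inner ℂ z (T k v) : ℂ)‖ ^ 2) = qf m T v z := rfl
  rw [h8] at h2
  linarith

theorem K_compact (m : St G) {T : G → H →L[ℂ] H} (hT : IsRep T) (v : H) :
    IsCompactOperator (Kop m hT v) := by
  have hcl : IsClosed {f : H →L[ℂ] H | IsCompactOperator f} := isClosed_setOfPred_isCompactOperator
  have hmem : Kop m hT v ∈ closure {f : H →L[ℂ] H | IsCompactOperator f} := by
    rw [Metric.mem_closure_iff]
    intro δ hδ
    set A : ℝ := ‖v‖ ^ 2 + 1 with hA
    have hApos : 0 < A := by positivity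
    obtain ⟨n, e, he, hq⟩ := exists_family m hT v (ε := (δ / 2) ^ 2 / A) (by positivity)
    let E : Submodule ℂ H := Submodule.span ℂ (Set.range e)
    have hE : FiniteDimensional ℂ E := FiniteDimensional.span_of_finite ℂ (Set.finite_range e)
    have hEp : ProperSpace E := FiniteDimensional.proper ℂ E
    refine ⟨(Kop m hT v ∘L E.subtypeL) ∘L E.orthogonalProjectionOnto, ?_, ?_⟩
    · have h1 : IsCompactOperator (E.orthogonalProjectionOnto : H →L[ℂ] E) :=
        isCompactOperator_of_locallyCompactSpace_dom _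
      exact h1.clm_comp (Kop m hT v ∘L E.subtypeL)
    · rw [dist_eq_norm]
      refine lt_of_le_of_lt (ContinuousLinearMap.opNorm_le_bound _ (by positivity : 0 ≤ δ / 2)
        fun z => ?_) (by linarith)
      have h2 : (Kop m hT v - (Kop m hT v ∘L E.subtypeL) ∘L E.orthogonalProjectionOnto) z =
          Kop m hT v (z - E.starProjection z) := by
        rw [map_sub]
        rfl
      rw [h2]
      have h3 := hq (z - E.starProjection z) (fun i =>
        E.starProjection_inner_eq_zero z (e i) (Submodule.subset_span ⟨i, rfl⟩))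
      have h4 : ‖z - E.starProjection z‖ ^ 2 ≤ ‖z‖ ^ 2 := by
        have h5 := E.starProjection_inner_eq_zero z _ (E.starProjection_apply_mem z)
        have h6 := norm_add_sq_eq_norm_sq_add_norm_sq_of_inner_eq_zero
          (z - E.starProjection z) (E.starProjection z) h5
        rw [sub_add_cancel] at h6
        nlinarith [norm_nonneg (E.starProjection z), norm_nonneg z]
      have h7 := K_bound m hT v (z - E.starProjection z)
      have h8 : ‖Kop m hT v (z - E.starProjection z)‖ ^ 2 ≤ (δ / 2 * ‖z‖) ^ 2 := by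
        calc _ ≤ A * qf m T v (z - E.starProjection z) := h7
          _ ≤ A * ((δ / 2) ^ 2 / A * ‖z - E.starProjection z‖ ^ 2) :=
              mul_le_mul_of_nonneg_left h3 hApos.le
          _ = (δ / 2) ^ 2 * ‖z - E.starProjection z‖ ^ 2 := by field_simp
          _ ≤ (δ / 2) ^ 2 * ‖z‖ ^ 2 := mul_le_mul_of_nonneg_left h4 (by positivity)
          _ = _ := by ring
      exact (pow_le_pow_iff_left₀ (norm_nonneg _) (by positivity) two_ne_zero).1 h8
  rw [hcl.closure_eq] at hmem
  exact hmem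

end op

end Rep

open Rep

theorem s_rep : S_rep.{u} := by
  intro G _ m hm H _ _ _ T hT v w hw
  have hK0 : Kop m hT v ≠ 0 := by
    intro h0
    apply hw
    have h1 := K_inner m hT v w w
    rw [h0, ContinuousLinearMap.zero_apply, inner_zero_left] at h1
    have h2 : m (bf T v w w) = (m.re (fun k => ‖(inner ℂ w (T k v) : ℂ)‖ ^ 2) : ℂ) := by
      rw [← s_ofReal m (q_bdd hT v w)]
      congr 1
      funext k
      unfold bf
      rw [← inner_conj_symm (T k v) w, Complex.mul_conj']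
      push_cast
      rfl
    rw [h2] at h1
    exact_mod_cast h1.symm
  have hsym : (Kop m hT v : H →ₗ[ℂ] H).IsSymmetric := fun x y => K_symm m hT v x y
  have hcomp := K_compact m hT v
  have h1 : ∃ μ : ℂ, Module.End.HasEigenvalue (Kop m hT v : Module.End ℂ H) μ ∧ μ ≠ 0 := by
    by_contra hcon
    push Not at hcon
    exact hK0 ((ContinuousLinearMap.eq_zero_of_forall_hasEigenvalue_eq_zero hcomp hsym).1 hcon)
  obtain ⟨μ, hμ, hμ0⟩ := h1
  set V := Module.End.eigenspace (Kop m hT v : Module.End ℂ H) μ with hV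
  have hfd : FiniteDimensional ℂ V :=
    ContinuousLinearMap.finite_dimensional_eigenspace hcomp μ hμ0
  have hmemV : ∀ x, x ∈ V ↔ Kop m hT v x = μ • x := by
    intro x
    rw [hV, Module.End.mem_eigenspace_iff]
    rfl
  obtain ⟨x, hxV, hx0, hx⟩ := common hT _ V hfd rfl hμ (by
    intro g x hx
    rw [hmemV] at hx ⊢
    rw [← K_comm m hm hT, hx, map_smul])
  obtain ⟨χ, hχ⟩ := char_of hT x hx0 hx
  refine ⟨x, χ, hχ, ?_⟩
  intro hxv
  have h2 : inner ℂ (Kop m hT v x) x = (0 : ℂ) := by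
    rw [K_inner]
    have h3 : bf T v x x = fun _ => (0 : ℂ) := by
      funext k
      unfold bf
      rw [rep_shift hT k x v, hχ, inner_smul_left, hxv, mul_zero, zero_mul]
    rw [h3]
    have h4 := m.smul' 0 (fun _ => 0) ⟨0, fun _ => by simp⟩
    simpa using h4
  rw [(hmemV x).1 hxV, inner_smul_left] at h2
  rcases mul_eq_zero.1 h2 with h5 | h5
  · exact hμ0 ((map_eq_zero (starRingEnd ℂ)).1 h5)
  · exact hx0 (inner_self_eq_zero.1 h5)

end Pool.Agent.R706.Bohr
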